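import Pool.Agent.H.MP_ac3185_nt.V.Norm

/-! Hilbert's theorem 90 for the absolute Galois group. -/

set_option autoImplicit false

namespace Pool.Agent.H.MP_ac3185_nt

universe u

section hilbert

variable {K : Type u} [Field K]

/-- A cocycle of `Gal(Kbar/M)` with values in `Kbar^*`, which is trivial on an open subgroup, is a
coboundary. -/
theorem v9_hilbert90 [CharZero K] (M E : IntermediateField K (AlgebraicClosure K))
    [FiniteDimensional K M] [FiniteDimensional K E]
    (c : (AlgebraicClosure K ≃ₐ[K] AlgebraicClosure K) → AlgebraicClosure K)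
    (hmul : ∀ s ∈ M.fixingSubgroup, ∀ t ∈ M.fixingSubgroup, c (s * t) = c s * s (c t))
    (hE : ∀ s ∈ M.fixingSubgroup, s ∈ E.fixingSubgroup → c s = 1) :
    ∃ r : AlgebraicClosure K, r ≠ 0 ∧ ∀ s ∈ M.fixingSubgroup, s r = c s * r := by
  classical
  have hME : FiniteDimensional K (M ⊔ E : IntermediateField K (AlgebraicClosure K)) :=
    IntermediateField.finiteDimensional_sup M E
  obtain ⟨N, hN⟩ : ∃ N, N = IntermediateField.normalClosure K
    (M ⊔ E : IntermediateField K (AlgebraicClosure K)) (AlgebraicClosure K) := ⟨_, rfl⟩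
  have hle : M ⊔ E ≤ N := by
    rw [hN]
    exact IntermediateField.le_normalClosure _
  have hfd : FiniteDimensional K N := by
    rw [hN]
    infer_instance
  have hnorm : Normal K N := by
    rw [hN]
    infer_instance
  let res : (AlgebraicClosure K ≃ₐ[K] AlgebraicClosure K) →* (N ≃ₐ[K] N) :=
    AlgEquiv.restrictNormalHom N
  have hres : ∀ (s : AlgebraicClosure K ≃ₐ[K] AlgebraicClosure K) (z : N),
      ((res s z : N) : AlgebraicClosure K) = s z := fun s z =>
    AlgEquiv.restrictNormal_commutes s N z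
  -- the value of the cocycle depends only on the restriction
  have hfix : ∀ s : AlgebraicClosure K ≃ₐ[K] AlgebraicClosure K, res s = 1 →
      s ∈ M.fixingSubgroup ∧ s ∈ E.fixingSubgroup := by
    intro s hs
    have h1 : ∀ z ∈ M ⊔ E, s z = z := by
      intro z hz
      have h2 := hres s ⟨z, hle hz⟩
      rw [hs] at h2
      exact h2.symm
    constructor
    · rw [IntermediateField.mem_fixingSubgroup_iff]
      exact fun z hz => h1 z ((le_sup_left : M ≤ M ⊔ E) hz)
    · rw [IntermediateField.mem_fixingSubgroup_iff]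
      exact fun z hz => h1 z ((le_sup_right : E ≤ M ⊔ E) hz)
  have hwd : ∀ s ∈ M.fixingSubgroup, ∀ t ∈ M.fixingSubgroup, res s = res t → c s = c t := by
    intro s hs t ht h
    have h1 : res (t⁻¹ * s) = 1 := by rw [map_mul, map_inv, h, inv_mul_cancel]
    obtain ⟨h2, h3⟩ := hfix _ h1
    have h4 := hmul t ht _ h2
    rw [mul_inv_cancel_left, hE _ h2 h3, map_one, mul_one] at h4
    exact h4
  let c' : (N ≃ₐ[K] N) → AlgebraicClosure K := fun γ =>
    if h : ∃ s ∈ M.fixingSubgroup, res s = γ then c h.choose else 0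
  have hc' : ∀ s ∈ M.fixingSubgroup, c' (res s) = c s := by
    intro s hs
    have h : ∃ t ∈ M.fixingSubgroup, res t = res s := ⟨s, hs, rfl⟩
    show (if h : ∃ t ∈ M.fixingSubgroup, res t = res s then c h.choose else 0) = c s
    rw [dif_pos h]
    exact hwd _ h.choose_spec.1 _ hs h.choose_spec.2
  have hc'0 : ∀ γ, (¬ ∃ s ∈ M.fixingSubgroup, res s = γ) → c' γ = 0 := by
    intro γ h
    show (if h : ∃ t ∈ M.fixingSubgroup, res t = γ then c h.choose else 0) = 0
    rw [dif_neg h]
  have hshift : ∀ s ∈ M.fixingSubgroup, ∀ γ, c' (res s * γ) = c s * s (c' γ) := by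
    intro s hs γ
    by_cases h : ∃ t ∈ M.fixingSubgroup, res t = γ
    · obtain ⟨t, ht, rfl⟩ := h
      rw [← map_mul, hc' _ (mul_mem hs ht), hc' _ ht, hmul s hs t ht]
    · rw [hc'0 γ h, map_zero, mul_zero]
      apply hc'0
      rintro ⟨t, ht, h1⟩
      apply h
      refine ⟨s⁻¹ * t, mul_mem (inv_mem hs) ht, ?_⟩
      rw [map_mul, h1, map_inv, inv_mul_cancel_left]
  -- Poincare series
  let φ : (N ≃ₐ[K] N) → (N →* AlgebraicClosure K) := fun γ =>
    (N.val : N →* AlgebraicClosure K).comp (γ : N →* N)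
  have hφ : ∀ γ z, φ γ z = ((γ z : N) : AlgebraicClosure K) := fun _ _ => rfl
  have hinj : Function.Injective φ := by
    intro γ γ' h
    ext z
    exact DFunLike.congr_fun h z
  have hli := (linearIndependent_monoidHom N (AlgebraicClosure K)).comp φ hinj
  have hex : ∃ z : N, ∑ γ, c' γ * ((γ z : N) : AlgebraicClosure K) ≠ 0 := by
    by_contra hcon
    push Not at hcon
    have h1 := Fintype.linearIndependent_iff.1 hli c' (by
      ext z
      rw [Finset.sum_apply]
      exact hcon z) 1
    have h2 := hc' 1 (one_mem _)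
    rw [map_one, h1, hE 1 (one_mem _) (one_mem _)] at h2
    exact one_ne_zero h2.symm
  obtain ⟨z, hz⟩ := hex
  refine ⟨(∑ γ, c' γ * ((γ z : N) : AlgebraicClosure K))⁻¹, inv_ne_zero hz, fun s hs => ?_⟩
  have h1 : c s * s (∑ γ, c' γ * ((γ z : N) : AlgebraicClosure K)) =
      ∑ γ, c' γ * ((γ z : N) : AlgebraicClosure K) := by
    rw [map_sum, Finset.mul_sum, ← Equiv.sum_comp (Equiv.mulLeft (res s))
      (fun γ => c' γ * ((γ z : N) : AlgebraicClosure K))]
    refine Finset.sum_congr rfl fun γ _ => ?_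
    rw [Equiv.coe_mulLeft, hshift s hs γ, map_mul, ← mul_assoc, AlgEquiv.mul_apply, hres]
  have h2 : s (∑ γ, c' γ * ((γ z : N) : AlgebraicClosure K)) ≠ 0 := fun h => by
    rw [h, mul_zero] at h1
    exact hz h1.symm
  rw [map_inv₀]
  generalize s (∑ γ, c' γ * ((γ z : N) : AlgebraicClosure K)) = w at h1 h2
  rw [← h1, mul_inv, ← mul_assoc, mul_inv_cancel₀, one_mul]
  intro h
  rw [h, zero_mul] at h1
  exact hz h1.symm

end hilbert

end Pool.Agent.H.MP_ac3185_nt
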